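import Pool.Agent.V11108.Hyp9

/-!
# The fiber map of a controlled hyperbolic set with isolated invariant lift is lower semicontinuous

Positive answer to Q1, and with it to its special case Q2 (finite fibers with at least two points).

Idea.  Linearising along an orbit in local coordinates gives an exponential dichotomy with uniform
constants, and a contraction argument yields: a trajectory in `Q` for the control sequence `u` is
shadowed by a trajectory for every control sequence uniformly close to `u` (in `Q`, by isolation), and
two trajectories for the same control sequence which stay close for all times are equal.  The control
range is compact and connected, so any two of its points are joined by chains of small steps with a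
uniform number `m` of steps.  Hence if control sequences `v` tend to `u` in the product topology, there
are `m` intermediate sequences, consecutive ones uniformly close, all of them tending to `u`; shadowing
successively gives trajectories in `Q`, and by compactness and expansivity each of their initial points
tends to the given point of the fiber over `u`.
-/

set_option autoImplicit false

open Filter Topology Set Bundle
open scoped Manifold ContDiff

namespace Pool.Agent.Results.MP_dedb2f_an.LowerSemicontinuity

open Pool.Agent.V11108.Hyp2 Pool.Agent.V11108.Hyp5 Pool.Agent.V11108.Hyp9

theorem result
    -- a smooth manifold with a continuous (for instance smooth) Riemannian metric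
    {E : Type*} [NormedAddCommGroup E] [NormedSpace ℝ E] [FiniteDimensional ℝ E]
    {M : Type*} [TopologicalSpace M] [T2Space M] [ChartedSpace E M] [IsManifold 𝓘(ℝ, E) ∞ M]
    [RiemannianBundle (fun x : M => TangentSpace 𝓘(ℝ, E) x)]
    [IsContinuousRiemannianBundle E (fun x : M => TangentSpace 𝓘(ℝ, E) x)]
    -- the control range
    {U : Type*} [MetricSpace U] [CompactSpace U] [ConnectedSpace U]
    (S : ControlSystem E M U) (Q : Set M)
    (hyperbolic : Hyperbolic S Q) (isolated : IsolatedLift S Q) :
    LowerSemicont S Q :=
  main S Q hyperbolic isolated

end Pool.Agent.Results.MP_dedb2f_an.LowerSemicontinuity
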